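import Mathlib

set_option autoImplicit false
set_option linter.unusedSectionVars false

/-!
# Independent sets in graphs without circuits of length three and four
-/

namespace Pool.Agent.R545.IN

open Finset

/-- a symmetric irreflexive relation without triangles and circuits of length four -/
structure Good {V : Type} (R : V → V → Prop) : Prop where
  symm : ∀ {a b}, R a b → R b a
  irr : ∀ a, ¬ R a a
  tri : ∀ {a b c}, R a b → R b c → R c a → False
  four : ∀ {a b c d}, a ≠ c → b ≠ d → R a b → R b c → R c d → R d a → False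

/-- there are `k` pairwise nonadjacent elements in `W` -/
def Ind {V : Type} (R : V → V → Prop) (k : ℕ) (W : Finset V) : Prop :=
  ∃ I : Finset V, I ⊆ W ∧ I.card = k ∧ ∀ x ∈ I, ∀ y ∈ I, ¬ R x y

/-- `n` elements are enough for `k` pairwise nonadjacent ones -/
def Thr {V : Type} (R : V → V → Prop) (n k : ℕ) : Prop :=
  ∀ W : Finset V, n ≤ W.card → Ind R k W

variable {V : Type} [DecidableEq V] {R : V → V → Prop} [∀ y, DecidablePred (R y)]

theorem indOf {k : ℕ} {W I : Finset V} (h : I ⊆ W) (hc : k ≤ I.card)
    (hi : ∀ x ∈ I, ∀ y ∈ I, ¬ R x y) : Ind R k W := by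
  obtain ⟨J, hJ, hJc⟩ := exists_subset_card_eq hc
  exact ⟨J, hJ.trans h, hJc, fun x hx y hy => hi x (hJ hx) y (hJ hy)⟩

theorem lemA (h : Good R) {n k : ℕ} {W : Finset V} {v : V} (ht : Thr R n k) (hv : v ∈ W)
    (hno : ¬ Ind R (k + 1) W) : W.card < n + 1 + (W.filter (R v)).card := by
  by_contra hc
  set T := (W.erase v).filter (fun y => ¬ R v y) with hT
  have h1 : (W.erase v).filter (R v) = W.filter (R v) := by
    ext y
    simp only [mem_filter, mem_erase]
    constructor
    · rintro ⟨⟨_, h2⟩, h3⟩; exact ⟨h2, h3⟩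
    · rintro ⟨h2, h3⟩
      exact ⟨⟨fun h4 => h.irr v (h4 ▸ h3), h2⟩, h3⟩
  have h2 := Finset.card_filter_add_card_filter_not (s := W.erase v) (R v)
  rw [h1, card_erase_of_mem hv, ← hT] at h2
  have h3 : 1 ≤ W.card := card_pos.2 ⟨v, hv⟩
  obtain ⟨I, hI, hIc, hi⟩ := ht T (by omega)
  apply hno
  have hvI : v ∉ I := by
    intro h4
    have := hI h4
    rw [hT, mem_filter, mem_erase] at this
    exact this.1.1 rfl
  have hvy : ∀ y ∈ I, ¬ R v y := by
    intro y hy
    have := hI hy
    rw [hT, mem_filter] at this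
    exact this.2
  refine ⟨insert v I, ?_, by rw [card_insert_of_notMem hvI, hIc], ?_⟩
  · intro y hy
    rw [mem_insert] at hy
    rcases hy with rfl | hy
    · exact hv
    · exact (mem_erase.1 (mem_filter.1 (hI hy)).1).2
  · intro x hx y hy
    rw [mem_insert] at hx hy
    rcases hx with rfl | hx <;> rcases hy with rfl | hy
    · exact h.irr _
    · exact hvy y hy
    · exact fun h4 => hvy x hx (h.symm h4)
    · exact hi x hx y hy

theorem lemB (h : Good R) {k : ℕ} {W : Finset V} {v : V} (hno : ¬ Ind R k W) :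
    (W.filter (R v)).card < k := by
  by_contra hc
  refine hno (indOf (filter_subset _ W) (not_lt.1 hc) ?_)
  intro x hx y hy hxy
  exact h.tri (mem_filter.1 hx).2 hxy (h.symm (mem_filter.1 hy).2)

theorem indC (h : Good R) {W : Finset V} {v a : V} (hv : v ∈ W) (ha : a ∈ W.filter (R v)) :
    (((W.filter (R v)).erase a) ∪ ((W.filter (R a)).erase v)).card + 2 =
      (W.filter (R v)).card + (W.filter (R a)).card ∧
    ∀ x ∈ ((W.filter (R v)).erase a) ∪ ((W.filter (R a)).erase v),
      ∀ y ∈ ((W.filter (R v)).erase a) ∪ ((W.filter (R a)).erase v), ¬ R x y := by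
  have hva := (mem_filter.1 ha).2
  have hv' : v ∈ W.filter (R a) := mem_filter.2 ⟨hv, h.symm hva⟩
  constructor
  · have hd : Disjoint ((W.filter (R v)).erase a) ((W.filter (R a)).erase v) := by
      rw [disjoint_left]
      intro y h1 h2
      rw [mem_erase, mem_filter] at h1 h2
      exact h.tri hva h2.2.2 (h.symm h1.2.2)
    rw [card_union_of_disjoint hd, card_erase_of_mem ha, card_erase_of_mem hv']
    have h1 : 1 ≤ (W.filter (R v)).card := card_pos.2 ⟨a, ha⟩
    have h2 : 1 ≤ (W.filter (R a)).card := card_pos.2 ⟨v, hv'⟩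
    omega
  · have key : ∀ x y, x ≠ a → R v x → y ≠ v → R a y → ¬ R x y := by
      intro x y hx h1 hy h2 h3
      exact h.four (Ne.symm hy) hx h1 h3 (h.symm h2) (h.symm hva)
    intro x hx y hy
    rw [mem_union, mem_erase, mem_erase, mem_filter, mem_filter] at hx hy
    rcases hx with ⟨hx1, _, hx2⟩ | ⟨hx1, _, hx2⟩ <;> rcases hy with ⟨hy1, _, hy2⟩ | ⟨hy1, _, hy2⟩
    · exact fun h3 => h.tri hx2 h3 (h.symm hy2)
    · exact key x y hx1 hx2 hy1 hy2
    · exact fun h3 => key y x hy1 hy2 hx1 hx2 (h.symm h3)
    · exact fun h3 => h.tri hx2 h3 (h.symm hy2)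

theorem lemC (h : Good R) {k : ℕ} {W : Finset V} {v a : V} (hv : v ∈ W)
    (ha : a ∈ W.filter (R v)) (hno : ¬ Ind R k W) :
    (W.filter (R v)).card + (W.filter (R a)).card < k + 2 := by
  by_contra hc
  obtain ⟨h1, h2⟩ := indC h hv ha
  refine hno (indOf ?_ (by omega) h2)
  exact union_subset ((erase_subset _ _).trans (filter_subset _ _))
    ((erase_subset _ _).trans (filter_subset _ _))

/-- the elements at distance at least three -/
def Far (R : V → V → Prop) [∀ y, DecidablePred (R y)] (W : Finset V) (v : V) : Finset V :=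
  W.filter (fun y => y ≠ v ∧ ¬ R v y ∧ ∀ a ∈ W.filter (R v), ¬ R a y)

theorem far_card (h : Good R) {W : Finset V} {v : V} (hv : v ∈ W) :
    W.card ≤ (Far R W v).card + 1 + ∑ a ∈ W.filter (R v), (W.filter (R a)).card := by
  have h1 : W ⊆ Far R W v ∪ insert v (W.filter (R v) ∪
      (W.filter (R v)).biUnion (fun a => (W.filter (R a)).erase v)) := by
    intro y hy
    by_cases h2 : y = v
    · rw [h2]; simp
    by_cases h3 : R v y
    · rw [mem_union, mem_insert, mem_union, mem_filter (s := W)]
      exact Or.inr (Or.inr (Or.inl ⟨hy, h3⟩))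
    by_cases h4 : ∀ a ∈ W.filter (R v), ¬ R a y
    · rw [mem_union]
      exact Or.inl (mem_filter.2 ⟨hy, h2, h3, h4⟩)
    · push Not at h4
      obtain ⟨a, ha, hay⟩ := h4
      rw [mem_union, mem_insert, mem_union, mem_biUnion]
      exact Or.inr (Or.inr (Or.inr ⟨a, ha, mem_erase.2 ⟨h2, mem_filter.2 ⟨hy, hay⟩⟩⟩))
  have h2 := (card_le_card h1).trans (card_union_le _ _)
  have h3 := card_insert_le v (W.filter (R v) ∪
      (W.filter (R v)).biUnion (fun a => (W.filter (R a)).erase v))
  have h4 := card_union_le (W.filter (R v))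
    ((W.filter (R v)).biUnion (fun a => (W.filter (R a)).erase v))
  have h5 : ((W.filter (R v)).biUnion (fun a => (W.filter (R a)).erase v)).card ≤
    ∑ a ∈ W.filter (R v), ((W.filter (R a)).erase v).card := card_biUnion_le
  have h6 : ∑ a ∈ W.filter (R v), (W.filter (R a)).card =
      ∑ a ∈ W.filter (R v), ((W.filter (R a)).erase v).card + (W.filter (R v)).card := by
    rw [card_eq_sum_ones (W.filter (R v)), ← Finset.sum_add_distrib]
    refine Finset.sum_congr rfl fun a ha => ?_
    rw [card_erase_add_one]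
    exact mem_filter.2 ⟨hv, h.symm (mem_filter.1 ha).2⟩
  omega

theorem far_ind (h : Good R) {j k : ℕ} {W : Finset V} {v : V} (hi : Ind R j (Far R W v))
    (hk : (W.filter (R v)).card + j = k) : Ind R k W := by
  obtain ⟨I, hI, hIc, hi⟩ := hi
  have hd : Disjoint (W.filter (R v)) I := by
    rw [disjoint_left]
    intro y h1 h2
    exact (mem_filter.1 (hI h2)).2.2.1 (mem_filter.1 h1).2
  refine ⟨W.filter (R v) ∪ I, ?_, by rw [card_union_of_disjoint hd, hIc, hk], ?_⟩
  · exact union_subset (filter_subset _ _) (hI.trans (filter_subset _ _))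
  · intro x hx y hy
    rw [mem_union] at hx hy
    rcases hx with hx | hx <;> rcases hy with hy | hy
    · exact fun h3 => h.tri (mem_filter.1 hx).2 h3 (h.symm (mem_filter.1 hy).2)
    · exact (mem_filter.1 (hI hy)).2.2.2 x hx
    · exact fun h3 => (mem_filter.1 (hI hx)).2.2.2 y hy (h.symm h3)
    · exact hi x hx y hy

theorem lemD (h : Good R) {n j k : ℕ} {W : Finset V} {v : V} (ht : Thr R n j) (hv : v ∈ W)
    (hno : ¬ Ind R k W) (hk : (W.filter (R v)).card + j = k) :
    W.card < n + 1 + ∑ a ∈ W.filter (R v), (W.filter (R a)).card := by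
  by_contra hc
  have h1 := far_card h hv
  exact hno (far_ind h (ht (Far R W v) (by omega)) hk)

theorem thr1 : Thr R 1 1 ∨ ¬ Good R := by
  by_cases h : Good R
  · left
    intro W hW
    obtain ⟨x, hx⟩ := card_pos.1 hW
    exact ⟨{x}, by simpa using hx, by simp, by
      intro a ha b hb
      rw [mem_singleton] at ha hb
      rw [ha, hb]
      exact h.irr x⟩
  · exact Or.inr h

theorem thr2 (h : Good R) : Thr R 3 2 := by
  intro W hW
  by_contra hno
  obtain ⟨v, hv⟩ := card_pos.1 (show 0 < W.card by omega)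
  have h1 := lemA h (thr1.resolve_right (not_not.2 h)) hv hno
  have h2 := lemB h (v := v) hno
  omega

theorem thr3 (h : Good R) : Thr R 6 3 := by
  intro W hW
  by_contra hno
  obtain ⟨v, hv⟩ := card_pos.1 (show 0 < W.card by omega)
  have h1 := lemA h (thr2 h) hv hno
  have h2 := lemB h (v := v) hno
  omega

theorem thr4 (h : Good R) : Thr R 8 4 := by
  intro W hW
  by_contra hno
  have hA : ∀ v ∈ W, W.card < 6 + 1 + (W.filter (R v)).card := fun v hv =>
    lemA h (thr3 h) hv hno
  have hB : ∀ v, (W.filter (R v)).card < 4 := fun v => lemB h hno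
  have hC : ∀ v ∈ W, ∀ a ∈ W.filter (R v), (W.filter (R v)).card + (W.filter (R a)).card < 6 :=
    fun v hv a ha => lemC h hv ha hno
  have hsum : ∀ v ∈ W, ∀ m, (∀ a ∈ W.filter (R v), (W.filter (R a)).card ≤ m) →
      ∑ a ∈ W.filter (R v), (W.filter (R a)).card ≤ (W.filter (R v)).card * m := by
    intro v _ m hm
    have := Finset.sum_le_card_nsmul _ _ _ hm
    rwa [smul_eq_mul] at this
  have h2 : ∀ v ∈ W, (W.filter (R v)).card = 2 := by
    intro v hv
    have h3 := hA v hv
    have h4 := hB v
    by_contra hne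
    have h5 : (W.filter (R v)).card = 3 := by omega
    have h6 := hsum v hv 2 (fun a ha => by have := hC v hv a ha; omega)
    have h7 := lemD h (thr1.resolve_right (not_not.2 h)) hv hno (by rw [h5])
    rw [h5] at h6
    omega
  obtain ⟨v, hv⟩ := card_pos.1 (show 0 < W.card by omega)
  have h6 := hsum v hv 2 (fun a ha => (h2 a (mem_filter.1 ha).1).le)
  have h7 := lemD h (thr2 h) hv hno (by rw [h2 v hv])
  rw [h2 v hv] at h6
  omega

theorem thr5 (h : Good R) : Thr R 12 5 := by
  intro W hW
  by_contra hno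
  have hA : ∀ v ∈ W, W.card < 8 + 1 + (W.filter (R v)).card := fun v hv =>
    lemA h (thr4 h) hv hno
  obtain ⟨v, hv⟩ := card_pos.1 (show 0 < W.card by omega)
  have h1 := hA v hv
  obtain ⟨a, ha⟩ := card_pos.1 (show 0 < (W.filter (R v)).card by omega)
  have h2 := lemC h hv ha hno
  have h3 := hA a (mem_filter.1 ha).1
  omega

theorem thr6 (h : Good R) : Thr R 16 6 := by
  intro W hW
  by_contra hno
  have hA : ∀ v ∈ W, W.card < 12 + 1 + (W.filter (R v)).card := fun v hv =>
    lemA h (thr5 h) hv hno
  obtain ⟨v, hv⟩ := card_pos.1 (show 0 < W.card by omega)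
  have h1 := hA v hv
  obtain ⟨a, ha⟩ := card_pos.1 (show 0 < (W.filter (R v)).card by omega)
  have h2 := lemC h hv ha hno
  have h3 := hA a (mem_filter.1 ha).1
  omega

/-- **seven pairwise nonadjacent vertices** -/
theorem ind7 (h : Good R) (W : Finset V) (h3 : ∀ v ∈ W, 3 ≤ (W.filter (R v)).card)
    (hodd : 18 ≤ (W.filter (fun v => (W.filter (R v)).card % 2 = 1)).card) : Ind R 7 W := by
  by_contra hno
  set d : V → ℕ := fun v => (W.filter (R v)).card with hd
  have hA : ∀ v ∈ W, W.card < 16 + 1 + d v := fun v hv => lemA h (thr6 h) hv hno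
  have hC : ∀ v ∈ W, ∀ a ∈ W.filter (R v), d v + d a < 9 := fun v hv a ha =>
    lemC h hv ha hno
  have hne : ∀ v ∈ W, ∃ a, a ∈ W.filter (R v) := fun v hv =>
    card_pos.1 (show 0 < (W.filter (R v)).card by have := h3 v hv; omega)
  have h5 : ∀ v ∈ W, d v ≤ 5 := by
    intro v hv
    obtain ⟨a, ha⟩ := hne v hv
    have h1 := hC v hv a ha
    have h2 : 3 ≤ d a := h3 a (mem_filter.1 ha).1
    omega
  have hW18 : 18 ≤ W.card := hodd.trans (card_filter_le _ _)
  -- a vertex of degree three
  have hex : ∃ v ∈ W, d v = 3 := by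
    by_contra hc
    push Not at hc
    have h4 : ∀ v ∈ W, d v = 4 := by
      intro v hv
      obtain ⟨a, ha⟩ := hne v hv
      have h1 := hC v hv a ha
      have h2 : 3 ≤ d a := h3 a (mem_filter.1 ha).1
      have h2' : 3 ≤ d v := h3 v hv
      have h6 := hc a (mem_filter.1 ha).1
      have h7 := hc v hv
      omega
    have h6 : W.filter (fun v => (W.filter (R v)).card % 2 = 1) = ∅ := by
      rw [Finset.filter_eq_empty_iff]
      intro v hv h7
      have : d v % 2 = 1 := h7
      rw [h4 v hv] at this
      omega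
    rw [h6, card_empty] at hodd
    omega
  obtain ⟨v0, hv0, hd0⟩ := hex
  have hW19 : W.card ≤ 19 := by have := hA v0 hv0; omega
  -- no vertex of degree five
  have hno5 : ∀ v ∈ W, d v ≠ 5 := by
    intro v hv hdv
    have hnb : ∀ a ∈ W.filter (R v), d a = 3 := by
      intro a ha
      have h1 := hC v hv a ha
      have h2 : 3 ≤ d a := h3 a (mem_filter.1 ha).1
      omega
    have hs : ∑ a ∈ W.filter (R v), (W.filter (R a)).card = 15 := by
      rw [Finset.sum_congr rfl (fun a ha => hnb a ha), Finset.sum_const, smul_eq_mul]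
      have : (W.filter (R v)).card = 5 := hdv
      rw [this]
    have hf := far_card h hv
    rw [hs] at hf
    obtain ⟨r, hr, r', hr', hrr⟩ := one_lt_card.1 (show 1 < (Far R W v).card by omega)
    have hrW := (mem_filter.1 hr).1
    have hRrr : R r r' := by
      by_contra hc
      refine hno (far_ind h (j := 2) (v := v) ⟨{r, r'}, ?_, card_pair hrr, ?_⟩
        (by show (W.filter (R v)).card + 2 = 7; rw [show (W.filter (R v)).card = 5 from hdv]))
      · intro y hy
        rw [mem_insert, mem_singleton] at hy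
        rcases hy with rfl | rfl
        · exact hr
        · exact hr'
      · intro x hx y hy
        rw [mem_insert, mem_singleton] at hx hy
        rcases hx with rfl | rfl <;> rcases hy with rfl | rfl
        · exact h.irr _
        · exact hc
        · exact fun h' => hc (h.symm h')
        · exact h.irr _
    have hb : ∀ a ∈ W.filter (R v), ∃ b, b ∈ W ∧ R a b ∧ b ≠ v ∧ R r b := by
      intro a ha
      by_contra hc
      push Not at hc
      obtain ⟨k1, k2⟩ := indC h hv ha
      have k3 : r ∉ ((W.filter (R v)).erase a) ∪ ((W.filter (R a)).erase v) := by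
        intro hm
        rw [mem_union, mem_erase, mem_erase, mem_filter, mem_filter] at hm
        have h6 := (mem_filter.1 hr).2
        rcases hm with hm | hm
        · exact h6.2.1 hm.2.2
        · exact h6.2.2 a ha hm.2.2
      have k4 : ∀ y ∈ ((W.filter (R v)).erase a) ∪ ((W.filter (R a)).erase v), ¬ R r y := by
        intro y hy hRy
        rw [mem_union, mem_erase, mem_erase, mem_filter, mem_filter] at hy
        have h6 := (mem_filter.1 hr).2
        rcases hy with hy | hy
        · exact h6.2.2 y (mem_filter.2 ⟨hy.2.1, hy.2.2⟩) (h.symm hRy)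
        · exact hc y hy.2.1 hy.2.2 hy.1 hRy
      refine hno (indOf (I := insert r (((W.filter (R v)).erase a) ∪ ((W.filter (R a)).erase v)))
        ?_ ?_ ?_)
      · intro y hy
        rw [mem_insert, mem_union, mem_erase, mem_erase, mem_filter, mem_filter] at hy
        rcases hy with rfl | hy | hy
        · exact hrW
        · exact hy.2.1
        · exact hy.2.1
      · rw [card_insert_of_notMem k3]
        have h6 : (W.filter (R v)).card = 5 := hdv
        have h7 : (W.filter (R a)).card = 3 := hnb a ha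
        omega
      · intro x hx y hy
        rw [mem_insert] at hx hy
        rcases hx with rfl | hx <;> rcases hy with rfl | hy
        · exact h.irr _
        · exact k4 y hy
        · exact fun h' => k4 x hx (h.symm h')
        · exact k2 x hx y hy
    have : Nonempty V := ⟨v⟩
    choose! b hbW hb1 hb2 hb3 using hb
    have hinj : Set.InjOn b (W.filter (R v) : Finset V) := by
      intro a ha a' ha' hba
      by_contra hne'
      have h6 := hb1 a ha
      have h7 := hb1 a' ha'
      rw [← hba] at h7
      exact h.four (Ne.symm (hb2 a ha)) hne' (mem_filter.1 ha).2 h6 (h.symm h7)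
        (h.symm (mem_filter.1 ha').2)
    have hr'n : r' ∉ (W.filter (R v)).image b := by
      rw [mem_image]
      rintro ⟨a, ha, h6⟩
      exact (mem_filter.1 hr').2.2.2 a ha (h6 ▸ hb1 a ha)
    have hsub : insert r' ((W.filter (R v)).image b) ⊆ W.filter (R r) := by
      intro y hy
      rw [mem_insert, mem_image] at hy
      rcases hy with rfl | ⟨a, ha, rfl⟩
      · exact mem_filter.2 ⟨(mem_filter.1 hr').1, hRrr⟩
      · exact mem_filter.2 ⟨hbW a ha, hb3 a ha⟩
    have h8 := card_le_card hsub
    rw [card_insert_of_notMem hr'n, card_image_of_injOn hinj] at h8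
    have h9 : (W.filter (R v)).card = 5 := hdv
    have h10 : (W.filter (R r)).card ≤ 5 := h5 r hrW
    omega
  -- the end
  have h34 : ∀ v ∈ W, d v = 3 ∨ d v = 4 := by
    intro v hv
    have h1 := h5 v hv
    have h2 : 3 ≤ d v := h3 v hv
    have h6 := hno5 v hv
    omega
  have hD := lemD h (thr4 h) hv0 hno (by rw [show (W.filter (R v0)).card = 3 from hd0])
  have hsum : ∑ a ∈ W.filter (R v0), (W.filter (R a)).card ≤
      3 * (W.filter (R v0)).card + ((W.filter (R v0)).filter (fun a => ¬ d a % 2 = 1)).card := by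
    have e1 : 3 * (W.filter (R v0)).card = ∑ _a ∈ W.filter (R v0), 3 := by
      rw [Finset.sum_const, smul_eq_mul, mul_comm]
    rw [Finset.card_filter (fun a => ¬ d a % 2 = 1) (W.filter (R v0)), e1,
      ← Finset.sum_add_distrib]
    refine Finset.sum_le_sum fun a ha => ?_
    change d a ≤ _
    rcases h34 a (mem_filter.1 ha).1 with h6 | h6 <;> simp [h6]
  have h6 : ((W.filter (R v0)).filter (fun a => ¬ d a % 2 = 1)).card ≤
      (W.filter (fun v => ¬ d v % 2 = 1)).card :=
    card_le_card (Finset.filter_subset_filter _ (filter_subset _ _))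
  have h7 := Finset.card_filter_add_card_filter_not (s := W) (fun v => d v % 2 = 1)
  have h8 : 18 ≤ (W.filter (fun v => d v % 2 = 1)).card := hodd
  have h9 : (W.filter (R v0)).card = 3 := hd0
  rw [h9] at hsum
  omega

end Pool.Agent.R545.IN
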