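import Pool.Agent.R890.FF.Min
import Pool.Agent.R545.IN.Ramsey

set_option autoImplicit false
set_option linter.unusedSectionVars false
set_option synthInstance.maxHeartbeats 400000
set_option synthInstance.maxSize 2048

/-!
# Graphs in which seven vertices are never far from each other
-/

namespace Pool.Agent.R545.IN

open Finset Pool.Agent.TH362.TF Pool.Agent.TH362.TF.Four Pool.Agent.R890.FF

/-- The vertices `x` and `y` are joined by an edge, or by two different paths with two edges. -/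
def Close {V E : Type} (s t : E → V) (x y : V) : Prop :=
  (∃ e, Ends s t x y e) ∨
    ∃ (e f e' f' : E) (a b : V), (e ≠ e' ∨ f ≠ f') ∧ Ends s t x a e ∧ Ends s t a y f ∧
      Ends s t x b e' ∧ Ends s t b y f'

variable {V E : Type} [Fintype V] [DecidableEq V] [DecidableEq E]

/-- the relation of the neighbours in a minimal quotient -/
theorem good_nb {s t : E → V} {S : Finset E} (h : Mq s t S) : Good (Nb s t S) where
  symm := nb_comm
  irr := fun _ h' => h'.1 rfl
  tri := fun h1 h2 h3 => h.tri h1 h2 h3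
  four := fun hac hbd h1 h2 h3 h4 => h.four hac hbd h1 h2 h3 h4

/-- a minimal quotient has seven pairwise nonadjacent vertices which are not isolated -/
theorem Mq_ind7 {s t : E → V} {S : Finset E} (h : Mq s t S) :
    ∃ I : Finset V, I.card = 7 ∧ (∀ y ∈ I, ∃ z, Nb s t S y z) ∧
      ∀ x ∈ I, ∀ y ∈ I, ¬ Nb s t S x y := by
  classical
  set W : Finset V := univ.filter (fun y => ∃ z, Nb s t S y z) with hW
  have hN : ∀ y, W.filter (Nb s t S y) = univ.filter (Nb s t S y) := by
    intro y
    ext z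
    constructor
    · intro h0
      exact mem_filter.2 ⟨mem_univ _, (mem_filter.1 h0).2⟩
    · intro h0
      have h1 := (mem_filter.1 h0).2
      exact mem_filter.2 ⟨mem_filter.2 ⟨mem_univ _, y, nb_comm h1⟩, h1⟩
  obtain ⟨I, hI, hIc, hi⟩ := ind7 (good_nb h) W (by
      intro v hv
      rw [hN v]
      obtain ⟨z, hz⟩ := (mem_filter.1 hv).2
      have h1 : 0 < (univ.filter (Nb s t S v)).card :=
        card_pos.2 ⟨z, mem_filter.2 ⟨mem_univ _, hz⟩⟩
      have h2 := h.nb_ne_one v
      have h3 := h.nb_ne_two v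
      omega) (by
      refine h.odd18.trans (card_le_card fun y hy => ?_)
      have h1 := (h.odd_nb y).1 hy
      rw [mem_filter, hN y]
      refine ⟨?_, h1⟩
      obtain ⟨z, hz⟩ := card_pos.1 (show 0 < (univ.filter (Nb s t S y)).card by omega)
      exact mem_filter.2 ⟨mem_univ _, z, (mem_filter.1 hz).2⟩)
  exact ⟨I, hIc, fun y hy => (mem_filter.1 (hI hy)).2, hi⟩

/-- **graphs in which among any seven vertices two are close** -/
theorem seven [Fintype E] (s t : E → V) (h1 : N1 s t univ)
    (h7 : ∀ x : Fin 7 → V, Function.Injective x → ∃ i j, i ≠ j ∧ Close s t (x i) (x j)) :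
    NZ s t univ ∨ PQ s t univ := by
  classical
  by_contra hc
  rw [not_or] at hc
  obtain ⟨π, hM⟩ := exists_Mq s t univ h1 hc.1 hc.2
  obtain ⟨I, hIc, hnb, hi⟩ := Mq_ind7 hM
  have hpre : ∀ y ∈ I, ∃ v, π v = y := by
    intro y hy
    obtain ⟨z, _, e, _, hE⟩ := hnb y hy
    rcases hE with ⟨h2, _⟩ | ⟨_, h2⟩
    · exact ⟨s e, h2⟩
    · exact ⟨t e, h2⟩
  set φ := (Finset.equivFinOfCardEq hIc).symm with hφ
  choose! g hg using hpre
  have hgφ : ∀ i, π (g (φ i)) = φ i := fun i => hg _ (φ i).2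
  obtain ⟨i, j, hij, hcl⟩ := h7 (fun i => g (φ i)) (by
    intro i j hij
    have h2 := congrArg π hij
    change π (g (φ i)) = π (g (φ j)) at h2
    rw [hgφ, hgφ] at h2
    exact φ.injective (Subtype.ext h2))
  have hXY : π (g (φ i)) ≠ π (g (φ j)) := by
    rw [hgφ, hgφ]
    intro h2
    exact hij (φ.injective (Subtype.ext h2))
  have hno : ¬ Nb (fun e => π (s e)) (fun e => π (t e)) univ (π (g (φ i))) (π (g (φ j))) := by
    rw [hgφ, hgφ]
    exact hi _ (φ i).2 _ (φ j).2
  have hmap : ∀ {u w : V} {e : E}, Ends s t u w e →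
      Ends (fun e => π (s e)) (fun e => π (t e)) (π u) (π w) e := by
    intro u w e hE
    rcases hE with ⟨h2, h3⟩ | ⟨h2, h3⟩
    · exact Or.inl ⟨congrArg π h2, congrArg π h3⟩
    · exact Or.inr ⟨congrArg π h2, congrArg π h3⟩
  rcases hcl with ⟨e, hE⟩ | ⟨e, f, e', f', a, b, hne, E1, E2, E3, E4⟩
  · exact hno ⟨hXY.symm, e, mem_univ _, hmap hE⟩
  · have mid : ∀ (e f : E) (a : V), Ends s t (g (φ i)) a e → Ends s t a (g (φ j)) f →
        π a ≠ π (g (φ i)) ∧ π a ≠ π (g (φ j)) := by
      intro e f a k1 k2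
      refine ⟨fun k3 => ?_, fun k3 => ?_⟩
      · have k4 := hmap k2
        rw [k3] at k4
        exact hno ⟨hXY.symm, f, mem_univ _, k4⟩
      · have k4 := hmap k1
        rw [k3] at k4
        exact hno ⟨hXY.symm, e, mem_univ _, k4⟩
    obtain ⟨A1, A2⟩ := mid e f a E1 E2
    obtain ⟨B1, B2⟩ := mid e' f' b E3 E4
    by_cases hab : π a = π b
    · have k1 := hmap E3
      have k2 := hmap E4
      rw [← hab] at k1 k2
      have k3 := hM.nopar A1.symm (mem_univ e) (mem_univ e') (hmap E1) k1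
      have k4 := hM.nopar A2 (mem_univ f) (mem_univ f') (hmap E2) k2
      rcases hne with hne | hne
      · exact hne k3
      · exact hne k4
    · exact hM.four (a := π (g (φ i))) (b := π a) (c := π (g (φ j))) (d := π b) hXY hab
        ⟨A1, e, mem_univ _, hmap E1⟩ ⟨A2.symm, f, mem_univ _, hmap E2⟩
        (nb_comm ⟨B2.symm, f', mem_univ _, hmap E4⟩)
        (nb_comm ⟨B1, e', mem_univ _, hmap E3⟩)

end Pool.Agent.R545.IN
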